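import Mathlib
import Pool.Agent.MP_ec1b19_nt.H49.Main
import Pool.Agent.MP_ec1b19_nt.H49.Link

set_option autoImplicit false

namespace Pool.Agent.Results.MP_ec1b19_nt.AlmkvistZudilin

open Finset

/-- The Almkvist–Zudilin number, as the exact rational sum of the definition. -/
def Z (n : ℕ) : ℚ :=
  ∑ k ∈ (range (n + 1)).filter (fun k => 3 * k ≤ n),
    (-3 : ℚ) ^ (n - 3 * k) * ((n + k).factorial : ℚ) /
      ((k.factorial : ℚ) ^ 4 * ((n - 3 * k).factorial : ℚ))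

lemma Z_eq (n : ℕ) : Z n = ((Pool.Agent.MP_ec1b19_nt.H49.W Pool.Agent.MP_ec1b19_nt.H49.cc n : ℤ) : ℚ) := by
  rw [Pool.Agent.MP_ec1b19_nt.H49.W_eq_ZA, Pool.Agent.MP_ec1b19_nt.H49.ZA_eq_ZB]
  unfold Z Pool.Agent.MP_ec1b19_nt.H49.ZB
  have h : (range (n + 1)).filter (fun k => 3 * k ≤ n) = range (n / 3 + 1) := by
    ext k
    simp only [mem_filter, mem_range]
    omega
  rw [h]
  refine sum_congr rfl fun k hk => ?_
  rw [mem_range] at hk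
  unfold Pool.Agent.MP_ec1b19_nt.H49.tt
  rw [if_pos (by omega)]
  ring

theorem result (p m r : ℕ) (hp : p.Prime) (h3 : 3 ≤ p) (_hm : 1 ≤ m) (hr : 1 ≤ r) :
    ∃ q : ℤ, Z (p ^ r * m) - Z (p ^ (r - 1) * m) = (p : ℚ) ^ (3 * r) * (q : ℚ) := by
  have : Fact p.Prime := ⟨hp⟩
  have h := Pool.Agent.MP_ec1b19_nt.H49.W_modEq (p := p) (by omega) m r hr
  obtain ⟨q, hq⟩ := h.symm.dvd
  refine ⟨q, ?_⟩
  rw [Z_eq, Z_eq]
  exact_mod_cast hq

end Pool.Agent.Results.MP_ec1b19_nt.AlmkvistZudilin
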